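import Pool.Agent.H522R3.UT.Stmts

set_option autoImplicit false

open Set Filter Topology Metric MeasureTheory

namespace Pool.Agent.H935R3.PSH

open Pool.Agent.H522R3.UT

/-- the test bump -/
noncomputable def bump (a θ : ℝ) : ℝ := max 0 (min θ (a - θ))

theorem bump_cont (a : ℝ) : Continuous (bump a) := by
  unfold bump
  fun_prop

theorem bump_int_pos (a : ℝ) (h0 : 0 < a) (h1 : a < 1) :
    0 < ∫ θ in (0 : ℝ)..(2 * Real.pi), bump a θ := by
  refine intervalIntegral.integral_pos (by positivity) (bump_cont a).continuousOn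
    (fun x _ => le_max_left _ _) ⟨a / 2, ⟨by linarith, by linarith [Real.pi_gt_three]⟩, ?_⟩
  unfold bump
  rw [show a - a / 2 = a / 2 by ring, min_self]
  exact lt_max_of_lt_right (by linarith)

theorem bounded_above {n : ℕ} {φ : Cn n → EReal} {K : Set (Cn n)} (hK : IsCompact K)
    (hu : UpperSemicontinuousOn φ K) (ht : ∀ z ∈ K, φ z ≠ ⊤) :
    ∃ C : ℝ, ∀ z ∈ K, φ z ≤ (C : EReal) := by
  refine hK.induction_on (p := fun S => ∃ C : ℝ, ∀ z ∈ S, φ z ≤ (C : EReal)) ⟨0, by simp⟩ ?_ ?_ ?_
  · rintro s t hst ⟨C, hC⟩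
    exact ⟨C, fun z hz => hC z (hst hz)⟩
  · rintro s t ⟨C, hC⟩ ⟨D, hD⟩
    refine ⟨max C D, ?_⟩
    rintro z (hz | hz)
    · exact (hC z hz).trans (by exact_mod_cast le_max_left _ _)
    · exact (hD z hz).trans (by exact_mod_cast le_max_right _ _)
  · intro z hz
    obtain ⟨c, hc, -⟩ := EReal.lt_iff_exists_real_btwn.1 (lt_top_iff_ne_top.2 (ht z hz))
    exact ⟨{y | φ y < c}, hu z hz c hc, c, fun y hy => le_of_lt hy⟩

theorem key {n : ℕ} {Ω : Set (Cn n)} {φ : Cn n → EReal} (hΩ : IsOpen Ω) (h : IsPSH Ω φ)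
    {x : Cn n} (hx : x ∈ Ω) (hcl : x ∈ closure (interior {y | y ∈ Ω ∧ φ y = ⊥})) :
    x ∈ interior {y | y ∈ Ω ∧ φ y = ⊥} := by
  obtain ⟨ε, hε, hball⟩ := Metric.isOpen_iff.1 hΩ x hx
  set s : ℝ := ε / 4 with hs
  have hs0 : 0 < s := by positivity
  obtain ⟨w, hw, hxw⟩ := Metric.mem_closure_iff.1 hcl s hs0
  obtain ⟨ρ, hρ, hwρ⟩ := Metric.isOpen_iff.1 isOpen_interior w hw
  have hsub : closedBall x (3 * s) ⊆ Ω := fun y hy => hball (by
    rw [mem_ball]
    rw [mem_closedBall] at hy
    linarith)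
  obtain ⟨C, hC⟩ := bounded_above (isCompact_closedBall x (3 * s)) (h.2.1.mono hsub)
    (fun z hz => h.1 z (hsub hz))
  rw [mem_interior_iff_mem_nhds]
  refine Metric.mem_nhds_iff.2 ⟨s, hs0, ?_⟩
  intro x1 hx1
  rw [mem_ball] at hx1
  refine ⟨hsub (by rw [mem_closedBall]; linarith), ?_⟩
  set a : ℝ := min (1 / 2) (ρ / (2 * s)) with ha
  have ha0 : 0 < a := lt_min (by norm_num) (by positivity)
  have ha1 : a < 1 := lt_of_le_of_lt (min_le_left _ _) (by norm_num)
  have ha2 : a * (2 * s) ≤ ρ := by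
    have : a ≤ ρ / (2 * s) := min_le_right _ _
    rwa [le_div_iff₀ (by positivity)] at this
  have hI := bump_int_pos a ha0 ha1
  set I : ℝ := ∫ θ in (0 : ℝ)..(2 * Real.pi), bump a θ with hIdef
  have hwx : ‖w - x1‖ < 2 * s := by
    rw [← dist_eq_norm]
    calc dist w x1 ≤ dist w x + dist x x1 := dist_triangle _ _ _
      _ < s + s := by
          rw [dist_comm w x, dist_comm x x1]
          exact add_lt_add hxw hx1
      _ = 2 * s := by ring
  have hdisc : ∀ ζ : ℂ, ‖ζ‖ ≤ 1 → x1 + ζ • (w - x1) ∈ closedBall x (3 * s) := by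
    intro ζ hζ
    rw [mem_closedBall, dist_eq_norm]
    have e : x1 + ζ • (w - x1) - x = (x1 - x) + ζ • (w - x1) := by abel
    rw [e]
    refine (norm_add_le _ _).trans ?_
    rw [norm_smul]
    have h1 : ‖x1 - x‖ < s := by rwa [← dist_eq_norm]
    have h2 : ‖ζ‖ * ‖w - x1‖ ≤ 1 * (2 * s) :=
      mul_le_mul hζ hwx.le (norm_nonneg _) zero_le_one
    linarith
  have hmain : ∀ K : ℝ, φ x1 ≤ ((C - K * I / (2 * Real.pi) : ℝ) : EReal) := by
    intro K
    have := h.2.2 x1 (w - x1) (fun ζ hζ => hsub (hdisc ζ hζ)) (fun θ => C - K * bump a θ)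
      (continuous_const.sub (continuous_const.mul (bump_cont a))) ?_
    · refine this.trans (le_of_eq ?_)
      congr 1
      have hint1 : IntervalIntegrable (fun _ : ℝ => C) volume 0 (2 * Real.pi) :=
        continuous_const.intervalIntegrable _ _
      have hint2 : IntervalIntegrable (fun θ : ℝ => K * bump a θ) volume 0 (2 * Real.pi) :=
        (continuous_const.mul (bump_cont a)).intervalIntegrable _ _
      rw [intervalIntegral.integral_sub hint1 hint2,
        intervalIntegral.integral_const, intervalIntegral.integral_const_mul, smul_eq_mul]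
      rw [← hIdef]
      have hpi : Real.pi ≠ 0 := Real.pi_ne_zero
      field_simp
      ring
    · intro θ hθ
      by_cases hb : bump a θ = 0
      · simp only [hb, mul_zero, sub_zero]
        refine hC _ (hdisc _ ?_)
        rw [Complex.norm_exp_ofReal_mul_I]
      · have hθ1 : 0 < θ ∧ θ < a := by
          by_contra hcon
          apply hb
          unfold bump
          apply max_eq_left
          rcases not_and_or.1 hcon with hc | hc
          · exact (min_le_left _ _).trans (not_lt.1 hc)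
          · exact (min_le_right _ _).trans (by linarith [not_lt.1 hc])
        have hmem : circ x1 (w - x1) θ ∈ ball w ρ := by
          rw [mem_ball, dist_eq_norm]
          have e : circ x1 (w - x1) θ - w =
              (Complex.exp ((θ : ℂ) * Complex.I) - 1) • (w - x1) := by
            unfold circ
            rw [sub_smul, one_smul]
            abel
          rw [e, norm_smul]
          have h1 : ‖Complex.exp ((θ : ℂ) * Complex.I) - 1‖ ≤ θ := by
            have := Real.norm_exp_I_mul_ofReal_sub_one_le (x := θ)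
            rw [mul_comm] at this
            rwa [Real.norm_eq_abs, abs_of_pos hθ1.1] at this
          calc ‖Complex.exp ((θ : ℂ) * Complex.I) - 1‖ * ‖w - x1‖ ≤ θ * (2 * s) :=
                mul_le_mul h1 hwx.le (norm_nonneg _) hθ1.1.le
            _ < a * (2 * s) := mul_lt_mul_of_pos_right hθ1.2 (by positivity)
            _ ≤ ρ := ha2
        have := (interior_subset (hwρ hmem)).2
        rw [this]
        exact bot_le
  rw [EReal.eq_bot_iff_forall_lt]
  intro y
  have h1 := hmain ((C - y + 1) * (2 * Real.pi) / I)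
  have e : C - (C - y + 1) * (2 * Real.pi) / I * I / (2 * Real.pi) = y - 1 := by
    have hpi : Real.pi ≠ 0 := Real.pi_ne_zero
    field_simp
    ring
  rw [e] at h1
  exact h1.trans_lt (by exact_mod_cast (by linarith : y - 1 < y))

theorem T8_proof : T8 := by
  intro n Ω φ hΩ hc h hz x hx r hr
  obtain ⟨z, hz, hφz⟩ := hz
  by_contra hcon
  push Not at hcon
  have hxU : x ∈ interior {y | y ∈ Ω ∧ φ y = ⊥} := by
    rw [mem_interior_iff_mem_nhds]
    have h1 : ball x r ∩ Ω ∈ 𝓝 x := Filter.inter_mem (ball_mem_nhds x hr) (hΩ.mem_nhds hx)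
    exact Filter.mem_of_superset h1 fun y hy => ⟨hy.2, hcon y hy.1 hy.2⟩
  have := hc (interior {y | y ∈ Ω ∧ φ y = ⊥}) (closure (interior {y | y ∈ Ω ∧ φ y = ⊥}))ᶜ
    isOpen_interior isClosed_closure.isOpen_compl ?_ ⟨x, hx, hxU⟩ ⟨z, hz, ?_⟩
  · obtain ⟨y, -, hy1, hy2⟩ := this
    exact hy2 (subset_closure hy1)
  · intro y hy
    by_cases hcl : y ∈ closure (interior {y | y ∈ Ω ∧ φ y = ⊥})
    · exact Or.inl (key hΩ h hy hcl)
    · exact Or.inr hcl
  · intro hcl
    exact hφz (interior_subset (key hΩ h hz hcl)).2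

end Pool.Agent.H935R3.PSH
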